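import Pool.Agent.Helper99.NQ.Defs
import Pool.Agent.Helper74.NS.Defs
import Pool.Agent.Helper96.PH.Defs

/-!
# Deterministic programs of length `c N log N` which query single symbols: definitions

`F` is a finite field (for bits `ZMod 2`). The content of the cell `b : B` is an element of the finite `F`-space `W`;
`enc : W →+ (Fin D × Fin m → B)` gives the `D m` letters of the cell. The block of the cell has one symbol in `F` for
every `l : W`, its content is the sum of the `l`, multiplied by their symbols. The input is `I : B × W → F`.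
-/

set_option autoImplicit false

namespace Pool.Agent.Helper96.BT

open Finset Pool.Agent.Helper19.NF Pool.Agent.Helper74.NW
open Pool.Agent.Helper74.NE (fine fine_apply)
open Pool.Agent.Helper99.NQ (pos)
open Pool.Agent.Helper96.PH (Det CB opn)

section defs

variable {n D m S : ℕ} {F B W G Z C : Type} [Field F] [AddCommGroup B] [AddCommGroup W] [Module F W] [Fintype W]

/-- The content of a block. -/
noncomputable def cont (y : W → F) : W := ∑ l, y l • l

/-- The table of the letters of all cells. -/
noncomputable def tab (enc : W →+ (Fin D × Fin m → B)) (I : B × W → F) (b : B) : Fin D × Fin m → B :=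
  enc (cont fun l => I (b, l))

/-- Any `j` letters of a cell can be prescribed. -/
def Mds (enc : W →+ (Fin D × Fin m → B)) (j : ℕ) : Prop :=
  ∀ (A : Finset (Fin D × Fin m)), A.card ≤ j → ∀ y : Fin D × Fin m → B, ∃ w, ∀ c ∈ A, enc w c = y c

open Classical in
/-- The symbols which are not queried in the list `c`. -/
noncomputable def free [Fintype C] (c : List C) : Finset C := univ.filter (fun z => z ∉ c)

open Classical in
/-- The number of symbols of the block `b` in `V`. -/
noncomputable def gap (V : Finset (B × W)) (b : B) : ℕ := (univ.filter (fun l : W => (b, l) ∈ V)).card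

variable [NeZero m]

open Classical in
/-- The nodes of row `i` with at most `e` letters whose blocks have at least `h` symbols in `V`. -/
noncomputable def full (enc : W →+ (Fin D × Fin m → B)) (g : Fin D → Equiv.Perm (Fin n)) (x0 : Fin n × Fin m → B)
    (h e i : ℕ) (I : B × W → F) (V : Finset (B × W)) : Finset (Fin n) :=
  univ.filter (fun u => (univ.filter (fun t => h ≤ gap V (val (fine g) x0 (tab enc I) i (u, t)))).card ≤ e)

open Classical in
/-- The nodes `u` of row `i + 1` all of whose children `g s u` in row `i` are in `full`. -/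
noncomputable def comp (enc : W →+ (Fin D × Fin m → B)) (g : Fin D → Equiv.Perm (Fin n)) (x0 : Fin n × Fin m → B)
    (h e i : ℕ) (I : B × W → F) (V : Finset (B × W)) : Finset (Fin n) :=
  univ.filter (fun u => ∀ s, g s u ∈ full enc g x0 h e i I V)

/-- The changes of the blocks of the letters of a row. -/
abbrev Ch (n m : ℕ) (F W : Type) := Fin n × Fin m → W → F

/-- The change of the letter `v` of row `i + 1`. -/
noncomputable def lam (enc : W →+ (Fin D × Fin m → B)) (g : Fin D → Equiv.Perm (Fin n)) (x : Ch n m F W)
    (v : Fin n × Fin m) : B := ∑ c, enc (cont (x (fine g c v))) c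

open Classical in
/-- The change of the symbols number `b u` in the holes of the nodes `u ∈ K` by `1`. -/
noncomputable def flip (g : Fin D → Equiv.Perm (Fin n)) (h1 : Fin n → Fin D × Fin m) (K : Finset (Fin n))
    (b : Fin n → W) : Ch n m F W :=
  fun p l => ∑ u ∈ K, if pos g h1 u = p ∧ b u = l then 1 else 0

open Classical in
/-- The symbols number `l` of the block of the letter `p` which are in `V`. -/
noncomputable def left (cell : Fin n × Fin m → B) (V : Finset (B × W)) (p : Fin n × Fin m) : Finset W :=
  univ.filter (fun l => (cell p, l) ∈ V)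

open Classical in
/-- The change `x` of the blocks of the cells `v`. -/
noncomputable def mv (v : Fin n × Fin m → B) (x : Ch n m F W) : B × W → F :=
  fun z => ∑ c, if z.1 = v c then x c z.2 else 0

/-- The input after the change `x` of the blocks of row `i`. -/
noncomputable def act (enc : W →+ (Fin D × Fin m → B)) (g : Fin D → Equiv.Perm (Fin n)) (x0 : Fin n × Fin m → B)
    (i : ℕ) (I : B × W → F) (x : Ch n m F W) : B × W → F := I + mv (val (fine g) x0 (tab enc I) i) x

/-- `c` is the list of the queries of runs with the given states and lengths. -/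
inductive RunL {X : Type} (P : NProg C X Z S) (I : C → X) : List (Fin S × ℕ × Fin S) → List C → Prop
  | nil : RunL P I [] []
  | cons (s t : Fin S) (k : ℕ) (L : List (Fin S × ℕ × Fin S)) (c c' : List C) :
      P.Run I s c t → c.length = k → RunL P I L c' → RunL P I ((s, k, t) :: L) (c ++ c')

/-- The bad inputs of the type `(i, L1, L2, A, s1, s2)`. -/
structure InD [Fintype B] (P : NProg (B × W) F Z S) (enc : W →+ (Fin D × Fin m → B)) (g : Fin D → Equiv.Perm (Fin n))
    (x0 : Fin n × Fin m → B) (h e T i : ℕ) (L1 L2 : List (Fin S × ℕ × Fin S)) (A : Finset (Fin n))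
    (s1 s2 : Fin n → Fin D) (I : B × W → F) : Prop where
  cf : CF (fine g) x0 i (tab enc I)
  run : ∃ c1 c2, RunL P I L1 c1 ∧ RunL P I L2 c2 ∧
    Fintype.card (B × W) ≤ (free (c1 ++ c2)).card + T ∧
    (∀ u ∈ A, u ∈ full enc g x0 h e (i + 1) I (free (c1 ++ c2))) ∧
    (∀ u ∈ A, g (s1 u) u ∉ full enc g x0 h e i I (free c1)) ∧
    (∀ u ∈ A, g (s2 u) u ∉ full enc g x0 h e i I (free c2))

/-- The bad inputs of the type `(i, L1, L2, A, h1, h2)`, where the holes are given by `h1`, `h2`. -/
structure InH [Fintype B] (P : NProg (B × W) F Z S) (enc : W →+ (Fin D × Fin m → B)) (g : Fin D → Equiv.Perm (Fin n))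
    (x0 : Fin n × Fin m → B) (h e T i : ℕ) (L1 L2 : List (Fin S × ℕ × Fin S)) (A : Finset (Fin n))
    (h1 h2 : Fin n → Fin D × Fin m) (I : B × W → F) : Prop where
  cf : CF (fine g) x0 i (tab enc I)
  run : ∃ c1 c2, RunL P I L1 c1 ∧ RunL P I L2 c2 ∧
    Fintype.card (B × W) ≤ (free (c1 ++ c2)).card + T ∧
    (∀ u ∈ A, u ∈ full enc g x0 h e (i + 1) I (free (c1 ++ c2))) ∧
    (∀ u ∈ A, h ≤ gap (free c1) (val (fine g) x0 (tab enc I) i (pos g h1 u))) ∧
    (∀ u ∈ A, h ≤ gap (free c2) (val (fine g) x0 (tab enc I) i (pos g h2 u)))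

open Classical in
/-- A letter of row `i` used by the node `v` of row `i + 1` whose block has at least `h` symbols in `V`, if there is
one. -/
noncomputable def miss (enc : W →+ (Fin D × Fin m → B)) (g : Fin D → Equiv.Perm (Fin n)) (x0 : Fin n × Fin m → B)
    (h i : ℕ) (I : B × W → F) (V : Finset (B × W)) (v : Fin n) : Option (Fin D × Fin m) :=
  if hh : ∃ c : Fin D × Fin m, h ≤ gap V (val (fine g) x0 (tab enc I) i (g c.1 v, c.2)) then some hh.choose else none

/-- The inputs of the type `(L, Φ, τ)` of a side: the runs with the pieces `L` query the list `c`, which has the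
property `Φ` and leaves all but `T` symbols unread. -/
def InS [Fintype B] (P : NProg (B × W) F Z S) (enc : W →+ (Fin D × Fin m → B)) (g : Fin D → Equiv.Perm (Fin n))
    (x0 : Fin n × Fin m → B) (h T R : ℕ) (L : List (Fin S × ℕ × Fin S)) (Φ : List (B × W) → Prop)
    (τ : Fin n → Option (Fin D × Fin m)) (I : B × W → F) : Prop :=
  ∃ c, RunL P I L c ∧ Φ c ∧ Fintype.card (B × W) ≤ (free c).card + T ∧ ∀ v, miss enc g x0 h R I (free c) v = τ v

/-- The result: the sum of the symbols number `0` of the cells given by the letters `t < m1` of the row `R + 1`. -/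
noncomputable def out (enc : W →+ (Fin D × Fin m → B)) (g : Fin D → Equiv.Perm (Fin n)) (x0 : Fin n × Fin m → B)
    (m1 R : ℕ) (I : B × W → F) : F :=
  ∑ v ∈ univ.filter (fun v : Fin n × Fin m => v.2.val < m1), I (val (fine g) x0 (tab enc I) (R + 1) v, 0)

/-- The result, for given symbols `γ` with the number `0`. -/
noncomputable def gout [AddCommGroup G] (enc : W →+ (Fin D × Fin m → B)) (g : Fin D → Equiv.Perm (Fin n))
    (x0 : Fin n × Fin m → B) (m1 R : ℕ) (γ : B → G) (I : B × W → F) : G :=
  ∑ v ∈ univ.filter (fun v : Fin n × Fin m => v.2.val < m1), γ (val (fine g) x0 (tab enc I) (R + 1) v)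

end defs

open Classical in
/-- The program with the answers `γ b` to the queries of the symbols `(b, 0)`. -/
noncomputable def fixz {F B W Z : Type} {S : ℕ} [Zero W] (P : NProg (B × W) F Z S) (γ : B → F) :
    NProg (B × W) F Z S where
  start := P.start
  act := fun s => (P.act s).map (fun t => (t.1, fun y => t.2 (if t.1.2 = 0 then γ t.1.1 else y))) id

/-- The runs with the pieces `L` query the list `c`, which has the property `Φ` and leaves all but `T` symbols
unread. -/
def InC {C X Z : Type} [Fintype C] {S : ℕ} (P : NProg C X Z S) (T : ℕ) (L : List (Fin S × ℕ × Fin S))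
    (Φ : List C → Prop) (I : C → X) : Prop :=
  ∃ c, RunL P I L c ∧ Φ c ∧ Fintype.card C ≤ (free c).card + T

/-- At least `ε N` symbols are queried at most `w` times each. -/
def Rare {C : Type} [Fintype C] (ε : ℝ) (w : ℕ) (l : List C) : Prop :=
  open Classical in ∃ X : Finset C, ε * Fintype.card C ≤ X.card ∧ ∀ z ∈ X, l.count z ≤ w

/-- The error of the first part. -/
noncomputable def errA (n D m a R S q d e : ℕ) (r η : ℝ) : ℝ :=
  R * ((S : ℝ) ^ 2 * (2 ^ d + 1) + 1) ^ (2 * q) * n.choose a * (D * (m / (e + 1))) ^ (2 * a) *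
    ((1 / η) ^ 2 * (4 * (m + 2) / (m * r) ^ 2)) ^ a

end Pool.Agent.Helper96.BT
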