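import Pool.Agent.Helper12.BT.InH
import Pool.Agent.Helper92.BT.R4b
import Pool.Agent.Helper98.BT.Type
import Pool.Agent.Helper18.BT.Class
import Pool.Agent.Helper27.BT.Main
import Pool.Agent.Helper17.BT.RunL
import Pool.Agent.Helper89.BT.Coll

/-!
# The pieces together
-/

set_option autoImplicit false

namespace Pool.Agent.Helper96.BT

open Finset Pool.Agent.Helper19.NF Pool.Agent.Helper74.NW
open Pool.Agent.Helper74.NE (fine fine_apply)
open Pool.Agent.Helper99.NQ (pos)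
open Pool.Agent.Helper96.PH (Det CB opn)
open Pool.Agent.Helper74.NS (Expands)

variable {n D m S : ℕ} [NeZero m] {F B W G Z : Type} [Field F] [Fintype F] [AddCommGroup B] [AddCommGroup W]
  [Module F W] [Fintype W] [Fintype B] (enc : W →+ (Fin D × Fin m → B))

/-- R4: all types together. -/
theorem bad_bound (hE : Mds enc (4 * D)) (P : NProg (B × W) F Z S) (hP : Det P) (g : Fin D → Equiv.Perm (Fin n))
    (x0 : Fin n × Fin m → B) (h e T a R q q' d : ℕ) (hX : Expands g a) (ha : 1 ≤ a) (hh : 0 < h)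
    (hL : h + 1 ≤ Fintype.card W) (he : e < m) (hq' : q ≤ 2 ^ q') (hR : q' + d ≤ R) (r : ℝ)
    (hr : 0 < r) (hrT : (T : ℝ) ≤ (1 - r) * Fintype.card (B × W))
    (hrh : (m * h + e * Fintype.card W : ℝ) ≤ m * Fintype.card W * r / 2) :
    (Nat.card {I // CF (fine g) x0 R (tab enc I) ∧ ∃ (L : List (Fin S × ℕ × Fin S)) (c : List (B × W)), L.length ≤ q ∧
        (∀ p ∈ L, p.2.1 ≤ 2 ^ d) ∧ RunL P I L c ∧ Fintype.card (B × W) ≤ (free c).card + T ∧
        a ≤ (comp enc g x0 h e R I (free c)).card} : ℝ) ≤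
      errA n D m a R S q d e r ((h : ℝ) / Fintype.card W) * Nat.card (B × W → F) := by
  refine Pool.Agent.Helper92.BT.bad_bound_of2 enc P g x0 h e T a R q q' d hX ha hL he hq' hR r ?_
  intro i L1 L2 A h1 h2 _
  exact Pool.Agent.Helper12.BT.card_inH enc hE P hP g x0 h e T i L1 L2 A h1 h2 hh r hr hrT hrh

/-- G3: all classes. -/
theorem class_bound [AddCommGroup G] [Fintype G] {m1 : ℕ} (hE : Mds enc (D * m1)) (hE4 : Mds enc (4 * D))
    (hm1 : m1 ≤ m) (P : NProg (B × W) F Z S) (hP : Det P) (hD : 0 < D) (g : Fin D → Equiv.Perm (Fin n))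
    (x0 : Fin n × Fin m → B) {h e T a R q q' d N : ℕ} (hX : Expands g a) (ha : 1 ≤ a) (hh : 0 < h)
    (hL : h + 1 ≤ Fintype.card W) (he : e < m) (hq' : q ≤ 2 ^ q') (hR : q' + d ≤ R) (r : ℝ)
    (hr : 0 < r) (hrT : (T : ℝ) ≤ (1 - r) * Fintype.card (B × W))
    (hrh : (m * h + e * Fintype.card W : ℝ) ≤ m * Fintype.card W * r / 2)
    (γ : B → G) {E : ℝ} (hE0 : 0 ≤ E) (hN : N + 2 * a ≤ n)
    (hCB : ∀ p, N ≤ p → CB γ (Fin p × Fin m1) 3 E) {Θ : Type} [Fintype Θ]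
    (L : Θ → Fin 2 → List (Fin S × ℕ × Fin S)) (Φ : Θ → Fin 2 → List (B × W) → Prop) (y : Θ → G)
    (hLq : ∀ t j, (L t j).length ≤ q) (hLd : ∀ t j, ∀ p ∈ L t j, p.2.1 ≤ 2 ^ d) :
    (Nat.card {I // CF (fine g) x0 R (tab enc I) ∧ ∃ t, y t = gout enc g x0 m1 R γ I ∧
        ∀ j, InC P T (L t j) (Φ t j) I} : ℝ) ≤
      (∑ t, (Nat.card {I // ∀ j, InC P T (L t j) (Φ t j) I} : ℝ)) / Fintype.card G +
        (errA n D m a R S q d e r ((h : ℝ) / Fintype.card W) + Fintype.card Θ * (D * m + 1) ^ (2 * n) *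
          (E * (1 / ((h : ℝ) / Fintype.card W)) ^ (4 * n))) * Nat.card (B × W → F) := by
  have hhL : h ≤ Fintype.card W := by omega
  have hr0 : 0 ≤ (1 / ((h : ℝ) / Fintype.card W)) ^ (4 * n) := by positivity
  refine Pool.Agent.Helper18.BT.class_bound_of P g x0 γ hN L Φ y hLq hLd (mul_nonneg hE0 hr0)
    (fun I {L c c'} h1 h2 => Pool.Agent.Helper17.BT.runL_unique hP h1 h2)
    (bad_bound enc hE4 P hP g x0 h e T a R q q' d hX ha hh hL he hq' hR r hr hrT hrh) ?_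
  intro L' Φ' τ z hτ
  have h1 := Pool.Agent.Helper98.BT.type_bound enc hE hm1 P hP hD g x0 (h := h) (T := T) (R := R) hh hhL hE0 γ L' Φ'
    τ (hCB _ hτ) z
  convert h1 using 2

/-- G4: the average over `γ`. -/
theorem main_bound {m1 : ℕ} (hE : Mds enc (D * m1)) (hE4 : Mds enc (4 * D)) (hm1 : m1 ≤ m)
    (P : NProg (B × W) F F S) (hP : Det P) (hD : 0 < D) (g : Fin D → Equiv.Perm (Fin n)) (x0 : Fin n × Fin m → B)
    (hx0 : Function.Injective x0)
    {h e T a R q q' d : ℕ} (hX : Expands g a) (ha : 1 ≤ a) (hh : 0 < h)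
    (hL : h + 1 ≤ Fintype.card W) (he : e < m) (hq' : q ≤ 2 ^ q') (hR : q' + d ≤ R) (r : ℝ)
    (hr : 0 < r) (hrT : (T : ℝ) ≤ (1 - r) * Fintype.card (B × W))
    (hrh : (m * h + e * Fintype.card W : ℝ) ≤ m * Fintype.card W * r / 2) (hn : 2 * a ≤ n) {Θ : Type} [Fintype Θ]
    (L : Θ → Fin 2 → List (Fin S × ℕ × Fin S)) (Φ : Θ → Fin 2 → List (B × W) → Prop) (y : Θ → F)
    (hLq : ∀ t j, (L t j).length ≤ q) (hLd : ∀ t j, ∀ p ∈ L t j, p.2.1 ≤ 2 ^ d) :
    (Nat.card {I // ∃ t, y t = out enc g x0 m1 R I ∧ ∀ j, InC P T (L t j) (Φ t j) I} : ℝ) ≤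
      (∑ t, (Nat.card {I // ∀ j, InC P T (L t j) (Φ t j) I} : ℝ)) / Fintype.card F +
        (((R + 1) * (n * m)) ^ 2 / Fintype.card B +
          Fintype.card F * 2 ^ 4 / Real.sqrt (Fintype.card B) +
          errA n D m a R S q d e r ((h : ℝ) / Fintype.card W) + Fintype.card Θ * (D * m + 1) ^ (2 * n) *
            ((Fintype.card B : ℝ) ^ (-((n - 2 * a : ℕ) * m1 : ℝ) / 2 ^ 5) *
              (1 / ((h : ℝ) / Fintype.card W)) ^ (4 * n))) * Nat.card (B × W → F) := by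
  have hE2 : Mds enc (2 * D) := fun A hA z => hE4 A (hA.trans (by omega)) z
  refine Pool.Agent.Helper27.BT.main_bound_of enc P hP g x0 r L Φ y ?_
    (Pool.Agent.Helper89.BT.card_not_CF enc hE2 hD g x0 hx0 R)
  intro P' hP' γ E hE0 hCB
  exact class_bound enc hE hE4 hm1 P' hP' hD g x0 hX ha hh hL he hq' hR r hr hrT hrh γ hE0 (by omega) hCB L Φ y hLq hLd

end Pool.Agent.Helper96.BT
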