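import Pool.Agent.Helper96.BT.Asm
import Pool.Agent.Helper99.BT.Classes
import Pool.Agent.Helper43.BT.Code
import Pool.Agent.Helper60.BT.Push
import Pool.Agent.Helper58.BT.Numbers
import Pool.Agent.Helper84.PH.Perms

/-!
# The theorem
-/

set_option autoImplicit false

namespace Pool.Agent.Helper96.BT

open Finset Pool.Agent.Helper19.NF Pool.Agent.Helper74.NW
open Pool.Agent.Helper74.NE (fine fine_apply)
open Pool.Agent.Helper96.PH (Det)
open Pool.Agent.Helper43.BT (evalCode mds_evalCode)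

theorem rare_of_length {C : Type} [Fintype C] {ε : ℝ} {w : ℕ} {l : List C}
    (hl : (l.length : ℝ) ≤ (1 - ε) * (w + 1) * Fintype.card C) : Rare ε w l := by
  classical
  unfold Rare
  have key : (univ.filter (fun z => ¬ l.count z ≤ w)).card * (w + 1) ≤ l.length := by
    rw [← List.sum_toFinset_count_eq_length, Finset.card_eq_sum_ones, Finset.sum_mul]
    calc ∑ z ∈ univ.filter (fun z => ¬ l.count z ≤ w), 1 * (w + 1)
        ≤ ∑ z ∈ univ.filter (fun z => ¬ l.count z ≤ w), l.count z := by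
          refine Finset.sum_le_sum fun z hz => ?_
          have := (mem_filter.1 hz).2
          omega
      _ ≤ ∑ z ∈ l.toFinset, l.count z := by
          refine Finset.sum_le_sum_of_subset fun z hz => ?_
          have := (mem_filter.1 hz).2
          rw [List.mem_toFinset]
          by_contra h
          rw [List.count_eq_zero_of_not_mem h] at this
          omega
  refine ⟨univ.filter (fun z => l.count z ≤ w), ?_, fun z hz => ?_⟩
  · have h1 : (univ.filter (fun z => l.count z ≤ w)).card + (univ.filter (fun z => ¬ l.count z ≤ w)).card =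
        Fintype.card C := by
      rw [Finset.card_filter_add_card_filter_not, card_univ]
    have h2 : ((univ.filter (fun z => l.count z ≤ w)).card : ℝ) + (univ.filter (fun z => ¬ l.count z ≤ w)).card =
        Fintype.card C := by exact_mod_cast h1
    have h3 : ((univ.filter (fun z => ¬ l.count z ≤ w)).card : ℝ) * (w + 1) ≤ l.length := by exact_mod_cast key
    have h4 : ((univ.filter (fun z => ¬ l.count z ≤ w)).card : ℝ) ≤ (1 - ε) * Fintype.card C := by
      have h5 : (0 : ℝ) < w + 1 := by positivity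
      refine le_of_mul_le_mul_right ?_ h5
      calc _ ≤ (l.length : ℝ) := h3
        _ ≤ _ := hl
        _ = _ := by ring
    linarith
  · exact (mem_filter.1 hz).2

/-- The theorem for given permutations. -/
theorem main_of (s : ℕ) [NeZero s] (hs : 2 ^ 60 ≤ s) (g : Fin 15 → Equiv.Perm (Fin (8 * s ^ 20 * 2)))
    (hg : Pool.Agent.Helper74.NS.Expands g (s ^ 20)) :
    ∀ (K : Type) [Field K] [Fintype K] [Algebra (ZMod 2) K]
      (ω : Fin 15 × Fin (s ^ 13) → K) (x0 : Fin (8 * s ^ 20 * 2) × Fin (s ^ 13) → K),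
      s ^ 2000 ≤ Fintype.card K → Function.Injective ω → Function.Injective x0 →
        -- deterministic programs
        (∀ (w S : ℕ) (ε θ : ℝ) (P : NProg (K × (Fin 60 → K)) (ZMod 2) (ZMod 2) S), 2 ^ w ≤ s → 1 / s ≤ ε → ε ≤ 1 →
          1 / s ≤ θ → θ ≤ 1 → S ≤ 2 ^ s → Det P →
          (Nat.card {I : K × (Fin 60 → K) → ZMod 2 // ∃ l,
              P.Ends I l (out (evalCode ω) g x0 1 (2 * s) I) ∧ Rare ε w l} : ℝ) ≤
            Nat.card {I : K × (Fin 60 → K) → ZMod 2 // ∃ l z, P.Ends I l z ∧ Rare (ε / 2) w l} / 2 +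
            θ * Nat.card (K × (Fin 60 → K) → ZMod 2)) ∧
        -- short computations
        (∀ (w : ℕ) (ε : ℝ) (l : List (K × (Fin 60 → K))),
          (l.length : ℝ) ≤ (1 - ε) * (w + 1) * Fintype.card (K × (Fin 60 → K)) → Rare ε w l) ∧
        -- the pushdown program
        ∃ (Q Γ : Type) (_ : Finite Q) (_ : Finite Γ) (P : PProg (K × (Fin 60 → K)) (ZMod 2) (ZMod 2) Q Γ),
          Nat.card Q ≤ Nat.card (K × (Fin 60 → K)) ^ 3 ∧ Nat.card Γ ≤ Nat.card (K × (Fin 60 → K)) ∧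
          ∀ I, P.Outputs I (out (evalCode ω) g x0 1 (2 * s) I) ∧
            Nat.card {x // P.Asks I x} ^ 2 * Fintype.card K ≤ Nat.card (K × (Fin 60 → K)) ^ 2 := by
  classical
  have hs1 : 1 ≤ s := le_trans (by norm_num) hs
  have hsR : (1 : ℝ) ≤ s := by exact_mod_cast hs1
  intro K _ _ _ ω x0 hk hω hx0
  set k := Fintype.card K with hkK
  have hL : Fintype.card (Fin 60 → K) = k ^ 60 := by rw [Fintype.card_fun, Fintype.card_fin]
  have hN : Fintype.card (K × (Fin 60 → K)) = k * k ^ 60 := by rw [Fintype.card_prod, hL]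
  have hmds : Mds (evalCode (j := 60) ω) 60 := mds_evalCode ω hω
  have hmds4 : Mds (evalCode (j := 60) ω) (4 * 15) := hmds
  have hmds1 : Mds (evalCode (j := 60) ω) (15 * 1) := fun A hA y => hmds A (hA.trans (by norm_num)) y
  refine ⟨?_, fun w ε l hl => rare_of_length hl, ?_⟩
  · intro w S ε θ P hw hε hε1 hθ hθ1 hS hP
    have hε0 : 0 < ε := lt_of_lt_of_le (by positivity) hε
    have hθ0 : 0 < θ := lt_of_lt_of_le (by positivity) hθ
    obtain ⟨L, hL'⟩ : ∃ L, L = k ^ 60 := ⟨_, rfl⟩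
    obtain ⟨N, hN'⟩ : ∃ N, N = k * L := ⟨_, rfl⟩
    obtain ⟨T, hT⟩ : ∃ T, T = N - ⌊ε / (4 * 2 ^ w) * N⌋₊ := ⟨_, rfl⟩
    obtain ⟨h, hh⟩ : ∃ h, h = L / (20 * s ^ 2) := ⟨_, rfl⟩
    obtain ⟨e, he⟩ : ∃ e, e = s ^ 13 / (20 * s ^ 2) := ⟨_, rfl⟩
    obtain ⟨q, hq⟩ : ∃ q, q = s ^ 8 := ⟨_, rfl⟩
    obtain ⟨Q, hQ⟩ : ∃ Q, Q = (w + 1) * q + 1 := ⟨_, rfl⟩
    have hnum := fun t ht => Pool.Agent.Helper58.BT.numbers (s := s) (k := k) (w := w) (q := q) (T := T) (h := h) (e := e) (S := S)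
      (L := L) (N := N) (t := t) (Q := Q) hs hk hw hε hε1 hθ hθ1 hL' hN' hT hq hh he hS hQ ht
    obtain ⟨n1, n2, n3, n4, n5, n6, n7, n8, -⟩ := hnum 0 (Nat.zero_le _)
    have hcN : Fintype.card (K × (Fin 60 → K)) = N := by rw [hN, hN', hL']
    have hcL : Fintype.card (Fin 60 → K) = L := by rw [hL, hL']
    obtain ⟨Θ, iΘ, L1, Φ, y, c1, c2, c3, c4, c5⟩ := Pool.Agent.Helper99.BT.classes P hP hS (w := w) (q := q) (T := T) (ε := ε)
      (θ := θ / 4) hε0 hε1 (by positivity) (by linarith) (by rw [hcN]; exact n2) n1 (by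
        rw [hN, hq]
        have h1 : s ^ 8 ≤ k := (Nat.pow_le_pow_right hs1 (by norm_num)).trans hk
        have h2 : 1 ≤ k := (Nat.one_le_pow _ _ hs1).trans hk
        exact h1.trans (Nat.le_mul_of_pos_right _ (Nat.pow_pos h2)))
    obtain ⟨-, -, -, -, -, -, -, -, n9⟩ := hnum (Fintype.card Θ) c1
    have hmb := main_bound (evalCode (j := 60) ω) (m1 := 1) hmds1 hmds4 (Nat.one_le_pow _ _ hs1)
      P hP (by norm_num) g x0 hx0 (h := h) (e := e) (T := T) (a := s ^ 20) (R := 2 * s) (q := Q) (q' := s) (d := s) hg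
      (Nat.one_le_pow _ _ hs1) n4 (by rw [hcL]; exact n5) n6 n3 (by omega) (1 / (5 * s ^ 2)) (by positivity)
      (by rw [hcN]; exact n7) (by rw [hcL]; exact n8) (by
        have := Nat.one_le_pow 20 s hs1
        omega) L1 Φ y (by rw [hQ]; exact c2) c3
    rw [hcL, ZMod.card, ← hkK] at hmb
    set tot : ℝ := ((Nat.card (K × (Fin 60 → K) → ZMod 2) : ℕ) : ℝ) with htot
    have htot0 : 0 ≤ tot := Nat.cast_nonneg _
    have h9 := mul_le_mul_of_nonneg_right n9 htot0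
    push_cast at hmb h9
    have h10 : (Nat.card {I : K × (Fin 60 → K) → ZMod 2 // ∃ l,
        P.Ends I l (out (evalCode ω) g x0 1 (2 * s) I) ∧ Rare ε w l} : ℝ) ≤
        Nat.card {I // ∃ t, y t = out (evalCode ω) g x0 1 (2 * s) I ∧ ∀ j, InC P T (L1 t j) (Φ t j) I} +
        Nat.card {I : K × (Fin 60 → K) → ZMod 2 // ∃ l z, P.Ends I l z ∧ Rare ε w l ∧
          ¬ ∃ t, y t = z ∧ ∀ j, InC P T (L1 t j) (Φ t j) I} := by
      have h11 : Nat.card {I : K × (Fin 60 → K) → ZMod 2 // ∃ l,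
          P.Ends I l (out (evalCode ω) g x0 1 (2 * s) I) ∧ Rare ε w l} ≤
          Nat.card {I // ∃ t, y t = out (evalCode ω) g x0 1 (2 * s) I ∧ ∀ j, InC P T (L1 t j) (Φ t j) I} +
          Nat.card {I : K × (Fin 60 → K) → ZMod 2 // ∃ l z, P.Ends I l z ∧ Rare ε w l ∧
            ¬ ∃ t, y t = z ∧ ∀ j, InC P T (L1 t j) (Φ t j) I} := by
        rw [Nat.card_eq_fintype_card, Nat.card_eq_fintype_card, Nat.card_eq_fintype_card, Fintype.card_subtype,
          Fintype.card_subtype, Fintype.card_subtype]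
        refine le_trans (card_le_card ?_) (card_union_le _ _)
        intro I hI
        obtain ⟨l, hl, hl2⟩ := (mem_filter.1 hI).2
        rw [mem_union, mem_filter, mem_filter]
        by_cases h12 : ∃ t, y t = out (evalCode ω) g x0 1 (2 * s) I ∧ ∀ j, InC P T (L1 t j) (Φ t j) I
        · exact Or.inl ⟨mem_univ _, h12⟩
        · exact Or.inr ⟨mem_univ _, l, _, hl, hl2, h12⟩
      exact_mod_cast h11
    have h13 : (∑ t, (Nat.card {I : K × (Fin 60 → K) → ZMod 2 // ∀ j, InC P T (L1 t j) (Φ t j) I} : ℝ)) / 2 ≤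
        (Nat.card {I : K × (Fin 60 → K) → ZMod 2 // ∃ l z, P.Ends I l z ∧ Rare (ε / 2) w l} + θ / 4 * tot) / 2 :=
      div_le_div_of_nonneg_right c5 (by norm_num)
    have h14 : 0 ≤ θ * tot := by positivity
    linarith
  · have hbig : (2 * s + 2) * ((8 * s ^ 20 * 2) * s ^ 13) * (15 * s ^ 13) ≤ k := by
      refine le_trans ?_ hk
      have h2 : 2 * s + 2 ≤ s ^ 2 := by nlinarith
      calc (2 * s + 2) * ((8 * s ^ 20 * 2) * s ^ 13) * (15 * s ^ 13)
          ≤ s ^ 2 * ((8 * s ^ 20 * 2) * s ^ 13) * (15 * s ^ 13) :=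
            Nat.mul_le_mul_right _ (Nat.mul_le_mul_right _ h2)
        _ = 240 * s ^ 48 := by ring
        _ ≤ s * s ^ 48 := Nat.mul_le_mul_right _ (le_trans (by norm_num) hs)
        _ = s ^ 49 := by ring
        _ ≤ s ^ 2000 := Nat.pow_le_pow_right hs1 (by norm_num)
    have hk1 : 1 ≤ k := le_trans (Nat.one_le_pow _ _ hs1) hk
    have hk2 : 2 ≤ k := by
      refine le_trans ?_ hk
      calc 2 ≤ s := le_trans (by norm_num) hs
        _ = s ^ 1 := (pow_one s).symm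
        _ ≤ s ^ 2000 := Nat.pow_le_pow_right hs1 (by norm_num)
    obtain ⟨Q, Γ, hQ, hΓ, P, p1, p2, p3⟩ := Pool.Agent.Helper60.BT.pushdown_program (F := ZMod 2) (evalCode (j := 60) ω) g x0 1 (2 * s)
      (by positivity) (by rw [← hkK]; exact hbig) (by rw [← hkK]; exact hk2)
      (by rw [hL, ← hkK]; exact Nat.pow_le_pow_right hk1 (by norm_num)) (by rw [ZMod.card, ← hkK]; exact hk2)
    refine ⟨Q, Γ, hQ, hΓ, P, p1, p2, fun I => ⟨(p3 I).1, ?_⟩⟩
    have h5 := (p3 I).2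
    have h6 : ((2 * s + 2) * (8 * s ^ 20 * 2 * s ^ 13)) ^ 2 ≤ k := by
      refine le_trans ?_ hk
      have h2 : 2 * s + 2 ≤ s ^ 2 := by nlinarith
      calc ((2 * s + 2) * (8 * s ^ 20 * 2 * s ^ 13)) ^ 2 ≤ (s ^ 2 * (8 * s ^ 20 * 2 * s ^ 13)) ^ 2 :=
            Nat.pow_le_pow_left (Nat.mul_le_mul_right _ h2) 2
        _ = 256 * s ^ 70 := by ring
        _ ≤ s * s ^ 70 := Nat.mul_le_mul_right _ (le_trans (by norm_num) hs)
        _ = s ^ 71 := by ring
        _ ≤ s ^ 2000 := Nat.pow_le_pow_right hs1 (by norm_num)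
    rw [Nat.card_eq_fintype_card (α := Fin 60 → K), hL] at h5
    rw [Nat.card_eq_fintype_card (α := K × (Fin 60 → K)), hN]
    calc Nat.card {x // P.Asks I x} ^ 2 * k ≤ ((2 * s + 2) * (8 * s ^ 20 * 2 * s ^ 13) * k ^ 60) ^ 2 * k :=
          Nat.mul_le_mul_right _ (Nat.pow_le_pow_left h5 2)
      _ = ((2 * s + 2) * (8 * s ^ 20 * 2 * s ^ 13)) ^ 2 * (k * (k ^ 60) ^ 2) := by ring
      _ ≤ k * (k * (k ^ 60) ^ 2) := Nat.mul_le_mul_right _ h6
      _ = (k * k ^ 60) ^ 2 := by ring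

/-- The theorem. -/
theorem main (s : ℕ) [NeZero s] (hs : 2 ^ 60 ≤ s) :
    ∃ g : Fin 15 → Equiv.Perm (Fin (8 * s ^ 20 * 2)), ∀ (K : Type) [Field K] [Fintype K] [Algebra (ZMod 2) K]
      (ω : Fin 15 × Fin (s ^ 13) → K) (x0 : Fin (8 * s ^ 20 * 2) × Fin (s ^ 13) → K),
      s ^ 2000 ≤ Fintype.card K → Function.Injective ω → Function.Injective x0 →
        -- deterministic programs
        (∀ (w S : ℕ) (ε θ : ℝ) (P : NProg (K × (Fin 60 → K)) (ZMod 2) (ZMod 2) S), 2 ^ w ≤ s → 1 / s ≤ ε → ε ≤ 1 →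
          1 / s ≤ θ → θ ≤ 1 → S ≤ 2 ^ s → Det P →
          (Nat.card {I : K × (Fin 60 → K) → ZMod 2 // ∃ l,
              P.Ends I l (out (evalCode ω) g x0 1 (2 * s) I) ∧ Rare ε w l} : ℝ) ≤
            Nat.card {I : K × (Fin 60 → K) → ZMod 2 // ∃ l z, P.Ends I l z ∧ Rare (ε / 2) w l} / 2 +
            θ * Nat.card (K × (Fin 60 → K) → ZMod 2)) ∧
        -- short computations
        (∀ (w : ℕ) (ε : ℝ) (l : List (K × (Fin 60 → K))),
          (l.length : ℝ) ≤ (1 - ε) * (w + 1) * Fintype.card (K × (Fin 60 → K)) → Rare ε w l) ∧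
        -- the pushdown program
        ∃ (Q Γ : Type) (_ : Finite Q) (_ : Finite Γ) (P : PProg (K × (Fin 60 → K)) (ZMod 2) (ZMod 2) Q Γ),
          Nat.card Q ≤ Nat.card (K × (Fin 60 → K)) ^ 3 ∧ Nat.card Γ ≤ Nat.card (K × (Fin 60 → K)) ∧
          ∀ I, P.Outputs I (out (evalCode ω) g x0 1 (2 * s) I) ∧
            Nat.card {x // P.Asks I x} ^ 2 * Fintype.card K ≤ Nat.card (K × (Fin 60 → K)) ^ 2 := by
  obtain ⟨g, hg⟩ := Pool.Agent.Helper84.PH.exists_perms (s ^ 20) 2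
    (Nat.one_le_pow _ _ (le_trans (by norm_num) hs)) (by norm_num)
  exact ⟨g, main_of s hs g hg⟩

end Pool.Agent.Helper96.BT
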