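import Pool.Agent.Helper96.BT.Defs

/-!
# Frame of BT: the statements of the pieces (this file contains `sorry` and is not imported by anything)

`n` nodes, `D` children, `m` letters per node, `m1` letters per node in the result, `e` letters may be holes in a
`full` node, `h` symbols, `T`: at most `T` symbols are queried.
-/

set_option autoImplicit false

namespace Pool.Agent.Helper96.BT.Frame

open Finset Pool.Agent.Helper19.NF Pool.Agent.Helper74.NW Pool.Agent.Helper96.BT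
open Pool.Agent.Helper74.NE (fine fine_apply)
open Pool.Agent.Helper99.NQ (pos)
open Pool.Agent.Helper96.PH (Det CB opn)
open Pool.Agent.Helper74.NS (Expands)

/-! ## K: colours, segments -/

/-- K1: random colours. `f A = #{x ∈ X : x ∉ c j for all j ∈ A}` has mean at least `#X / 2 ^ w` and variance at most
`q μ ^ 2 / 2` (pairs `x, y` with a common `j`), Chebyshev. -/
theorem colours {α : Type} [DecidableEq α] {q w μ : ℕ} (c : Fin q → Finset α) (X : Finset α)
    (hw : ∀ x ∈ X, (univ.filter (fun j => x ∈ c j)).card ≤ w) (hμ : ∀ j, (X ∩ c j).card ≤ μ) :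
    (Nat.card {A : Finset (Fin q) // (X.filter (fun x => ∀ j ∈ A, x ∉ c j)).card * (2 * 2 ^ w) < X.card} : ℝ) *
      (X.card : ℝ) ^ 2 ≤ 2 * q * μ ^ 2 * 4 ^ w * 2 ^ q := by
  sorry

/-- W (captain helper99, note 2816 (1)): the classes, from sampled counters. `L θ j` are the pieces of the side `j`,
`y θ` the result. Most inputs with an `ε`-rare computation are in a class; the classes are disjoint, and most inputs in a
class have an `ε / 2`-rare computation. -/
theorem classes {C X Z : Type} [Fintype C] [Fintype X] [Nonempty C] {S d : ℕ} (P : NProg C X Z S) (hP : Det P)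
    (hS : S ≤ 2 ^ d) {w q T : ℕ} {ε θ : ℝ} (h0 : 0 < ε) (h1 : ε ≤ 1) (hθ0 : 0 < θ) (hθ1 : θ ≤ 1)
    (hT : (Fintype.card C : ℝ) ≤ T + ε / (4 * 2 ^ w) * Fintype.card C)
    (hq : (10 ^ 6 : ℝ) * 2 ^ w * (w + 1) * (d + 1 / θ) ^ 2 / (ε ^ 2 * θ) ≤ q) (hqN : q ≤ Fintype.card C) :
    ∃ (Θ : Type) (_ : Fintype Θ) (L : Θ → Fin 2 → List (Fin S × ℕ × Fin S)) (Φ : Θ → Fin 2 → List C → Prop)
      (y : Θ → Z), Fintype.card Θ ≤ (S * (2 ^ d + 1) * (w + 2) ^ q) ^ ((w + 1) * q + 2) ∧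
      (∀ t j, (L t j).length ≤ (w + 1) * q + 1) ∧ (∀ t j, ∀ p ∈ L t j, p.2.1 ≤ 2 ^ d) ∧
      (Nat.card {I : C → X // ∃ l z, P.Ends I l z ∧ Rare ε w l ∧
        ¬ ∃ t, y t = z ∧ ∀ j, InC P T (L t j) (Φ t j) I} : ℝ) ≤ θ * Nat.card (C → X) ∧
      ∑ t, (Nat.card {I : C → X // ∀ j, InC P T (L t j) (Φ t j) I} : ℝ) ≤
        Nat.card {I : C → X // ∃ l z, P.Ends I l z ∧ Rare (ε / 2) w l} + θ * Nat.card (C → X) := by
  sorry

section runs

variable {C X Z : Type} {S : ℕ} {P : NProg C X Z S} {I : C → X}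

/-- K5: for a deterministic program the list is determined by the pieces (`Helper98.PB.run_unique`). -/
theorem runL_unique (hP : Det P) {L : List (Fin S × ℕ × Fin S)} {c c' : List C} (h : RunL P I L c)
    (h' : RunL P I L c') : c = c' := by
  sorry

/-- K7: changes of symbols which are not queried. -/
theorem runL_congr {L : List (Fin S × ℕ × Fin S)} {c : List C} (h : RunL P I L c) {I' : C → X}
    (hI : ∀ z ∈ c, I' z = I z) : RunL P I' L c := by
  sorry

/-- K8: a list of pieces is cut into two. -/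
theorem runL_append {L1 L2 : List (Fin S × ℕ × Fin S)} {c : List C} :
    RunL P I (L1 ++ L2) c ↔ ∃ c1 c2, c = c1 ++ c2 ∧ RunL P I L1 c1 ∧ RunL P I L2 c2 := by
  sorry

end runs

/-! ## M: the second moment -/

/-- M1 (helper97's `count`, Helper97/BT/Moment.lean). -/
theorem count {A T W K L1 L2 : Type} [Fintype A] [DecidableEq A] [Fintype T] [LinearOrder T] [Nonempty T] [Fintype W]
    [DecidableEq W] [Nonempty W] [AddCommGroup K] [Fintype K] [DecidableEq K] [AddCommGroup L1] [Fintype L1]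
    [AddCommGroup L2] [Fintype L2] (phi : A → T → L1 →+ K) (psi : A → T → L2 →+ K) (x : A → T → K)
    (hphi : ∀ q : A → Finset T, (∀ u, (q u).card ≤ 4) → ∀ z : A → T → K, ∃ l, ∀ u, ∀ t ∈ q u, phi u t l = z u t)
    (hpsi : ∀ q : A → Finset T, (∀ u, (q u).card ≤ 4) → ∀ z : A → T → K, ∃ l, ∀ u, ∀ t ∈ q u, psi u t l = z u t)
    (V1 : L2 → Finset (K × W)) (V2 : L1 → Finset (K × W)) (r : ℝ) (hr : 0 < r) (E : Finset (L1 × L2))
    (h1 : ∀ l ∈ E, r * (Fintype.card K * Fintype.card W) ≤ (V1 l.2 ∩ V2 l.1).card)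
    (h2 : ∀ l ∈ E, ∀ u, ∑ t, (((V1 l.2 ∩ V2 l.1).filter
      (fun p => p.1 = x u t + phi u t l.1 + psi u t l.2)).card : ℝ) ≤ Fintype.card T * Fintype.card W * r / 2) :
    (E.card : ℝ) ≤ (4 * (Fintype.card T + 2) / (Fintype.card T * r) ^ 2) ^ Fintype.card A *
      (Fintype.card L1 * Fintype.card L2) := by
  sorry

section net

variable {n D m S : ℕ} [NeZero m] {F B W G Z : Type} [Field F] [Fintype F] [AddCommGroup B] [AddCommGroup W]
  [Module F W] [Fintype W] [Fintype B] (enc : W →+ (Fin D × Fin m → B))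

/-- M2: the change of a letter by the changes in the holes, and that it is additive in `b`. -/
theorem lam_flip (g : Fin D → Equiv.Perm (Fin n)) (h1 : Fin n → Fin D × Fin m) (A : Finset (Fin n)) (b : Fin n → W)
    (v : Fin n × Fin m) : lam enc g (flip (F := F) g h1 A b) v =
      ∑ c, ∑ u ∈ A, if pos g h1 u = fine g c v then enc (b u) c else 0 := by
  sorry

/-- M3: any `4` letters of each node of `A` can be moved arbitrarily by changes in the holes. For every position `p` of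
a hole choose one node `u` with `pos g h1 u = p`, and `b u` such that `enc (b u) (s, p.2 - t)` has the right value for
the node `v` with `g s v = p.1`: `z v t` if `p = pos g h1 v` and `s = (h1 v).1`, and `0` otherwise. -/
theorem four (hE : Mds enc (4 * D)) (g : Fin D → Equiv.Perm (Fin n)) (h1 : Fin n → Fin D × Fin m)
    (A : Finset (Fin n)) (q : Fin n → Finset (Fin m)) (hq : ∀ u, (q u).card ≤ 4) (z : Fin n → Fin m → B) :
    ∃ b : Fin n → W, ∀ u ∈ A, ∀ t ∈ q u, lam enc g (flip (F := F) g h1 A b) (u, t) = z u t := by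
  sorry

open Classical in
/-- M4: the bound in one orbit, like `Helper89.PB.exact_bound`, with M1 (`L1 = L2 = {u // u ∈ A} → W`,
`V1 := ∅` where not valid), M2, M3. -/
theorem exact_bound (hE : Mds enc (4 * D)) (g : Fin D → Equiv.Perm (Fin n)) (h1 h2 : Fin n → Fin D × Fin m)
    (cell t0 : Fin n × Fin m → B) (h e T : ℕ) (E E1 E2 : Finset (Ch n m F W))
    (V1 V2 : Ch n m F W → Finset (B × W)) (hE1 : E ⊆ E1) (hE2 : E ⊆ E2)
    (cl1 : ∀ x ∈ E1, ∀ x', (∀ p l, x' p l ≠ x p l → l ∈ left cell (V1 x) p) → x' ∈ E1 ∧ V1 x' = V1 x)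
    (cl2 : ∀ x ∈ E2, ∀ x', (∀ p l, x' p l ≠ x p l → l ∈ left cell (V2 x) p) → x' ∈ E2 ∧ V2 x' = V2 x)
    (A : Finset (Fin n))
    (hT : ∀ x ∈ E, Fintype.card (B × W) ≤ (V1 x ∩ V2 x).card + T)
    (hfull : ∀ x ∈ E, ∀ u ∈ A,
      (univ.filter (fun t => h ≤ gap (V1 x ∩ V2 x) (t0 (u, t) + lam enc g x (u, t)))).card ≤ e)
    (hJ1 : ∀ x ∈ E, ∀ u ∈ A, h ≤ (left cell (V1 x) (pos g h1 u)).card)
    (hJ2 : ∀ x ∈ E, ∀ u ∈ A, h ≤ (left cell (V2 x) (pos g h2 u)).card) (hh : 0 < h) (r : ℝ) (hr : 0 < r)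
    (hrT : (T : ℝ) ≤ (1 - r) * Fintype.card (B × W))
    (hrh : (m * h + e * Fintype.card W : ℝ) ≤ m * Fintype.card W * r / 2) :
    (E.card : ℝ) ≤ (1 / ((h : ℝ) / Fintype.card W)) ^ (2 * A.card) *
      (4 * (m + 2) / (m * r) ^ 2) ^ A.card * Nat.card (Ch n m F W) := by
  sorry

/-! ## O: from orbits to inputs -/

/-- O1: the letters after a change of the blocks of row `i` (Helper66/NQ/Orb.lean, section `mv`, for the new `tab`). -/
theorem val_act_succ {g : Fin D → Equiv.Perm (Fin n)} {x0 : Fin n × Fin m → B} {i : ℕ} {I : B × W → F}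
    (h : CF (fine g) x0 i (tab enc I)) (x : Ch n m F W) (u : Fin n × Fin m) :
    val (fine g) x0 (tab enc (act enc g x0 i I x)) (i + 1) u =
      val (fine g) x0 (tab enc I) (i + 1) u + lam enc g x u := by
  sorry

/-- O2: from orbits to inputs, for two properties (`average2` in Helper98/PB/Type.lean, for the new `tab`). -/
theorem average2 (g : Fin D → Equiv.Perm (Fin n)) (x0 : Fin n × Fin m → B) (i : ℕ)
    (Q Q' : (B × W → F) → Prop) (hQ : ∀ I, Q I → CF (fine g) x0 i (tab enc I))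
    (hQ' : ∀ I, Q' I → CF (fine g) x0 i (tab enc I)) (c δ : ℝ) (hδ : 0 ≤ δ)
    (h5 : ∀ I : B × W → F, CF (fine g) x0 i (tab enc I) →
      (Nat.card {x : Ch n m F W // Q (act enc g x0 i I x)} : ℝ) ≤
        Nat.card {x : Ch n m F W // Q' (act enc g x0 i I x)} / c + δ * Nat.card (Ch n m F W)) :
    (Nat.card {I // Q I} : ℝ) ≤ Nat.card {I // Q' I} / c + δ * Nat.card (B × W → F) := by
  sorry

/-! ## R: the recursion -/

/-- R1: the recursion. `Expands`: `a` nodes have `4 a` children. Cut the list of pieces in two halves as long as it has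
two pieces or more, then halve the run. In every step the nodes of `comp` in row `i + 1` have all their children in
`full`; at least `4 a` nodes of row `i` are full; if both halves have less than `a` nodes in `comp` (row below), at
least `a` of them are in neither. Row `0`: at most one query, no full nodes (`e < m`, `h + 1 ≤ card W`). -/
theorem exists_inD (P : NProg (B × W) F Z S) (g : Fin D → Equiv.Perm (Fin n)) (x0 : Fin n × Fin m → B)
    (h e T a R : ℕ) (hX : Expands g a) (ha : 1 ≤ a) (hL : h + 1 ≤ Fintype.card W) (he : e < m)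
    {I : B × W → F} (hcf : CF (fine g) x0 R (tab enc I)) {L : List (Fin S × ℕ × Fin S)} {c : List (B × W)}
    (hc : RunL P I L c) {q d q' : ℕ} (hq : L.length ≤ q) (hq' : q ≤ 2 ^ q') (hk : ∀ p ∈ L, p.2.1 ≤ 2 ^ d)
    (hR : q' + d ≤ R) (hT : Fintype.card (B × W) ≤ (free c).card + T)
    (hcomp : a ≤ (comp enc g x0 h e R I (free c)).card) :
    ∃ i < R, ∃ L1 L2 A s1 s2, L1.length ≤ q ∧ L2.length ≤ q ∧ (∀ p ∈ L1, p.2.1 ≤ 2 ^ d) ∧
      (∀ p ∈ L2, p.2.1 ≤ 2 ^ d) ∧ A.card = a ∧ InD P enc g x0 h e T i L1 L2 A s1 s2 I := by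
  sorry

/-- R2: the inputs of one type with given holes, from M4, O2, K5, K7. -/
theorem card_inH (hE : Mds enc (4 * D)) (P : NProg (B × W) F Z S) (hP : Det P) (g : Fin D → Equiv.Perm (Fin n))
    (x0 : Fin n × Fin m → B) (h e T i : ℕ) (L1 L2 : List (Fin S × ℕ × Fin S)) (A : Finset (Fin n))
    (h1 h2 : Fin n → Fin D × Fin m) (hh : 0 < h) (r : ℝ) (hr : 0 < r)
    (hrT : (T : ℝ) ≤ (1 - r) * Fintype.card (B × W))
    (hrh : (m * h + e * Fintype.card W : ℝ) ≤ m * Fintype.card W * r / 2) :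
    (Nat.card {I // InH P enc g x0 h e T i L1 L2 A h1 h2 I} : ℝ) ≤
      (1 / ((h : ℝ) / Fintype.card W)) ^ (2 * A.card) * (4 * (m + 2) / (m * r) ^ 2) ^ A.card *
        Nat.card (B × W → F) := by
  sorry

/-- R3: the holes are chosen by averaging: every node `g (s1 u) u` has at least `e + 1` letters which may be taken. -/
theorem card_inD (P : NProg (B × W) F Z S) (g : Fin D → Equiv.Perm (Fin n))
    (x0 : Fin n × Fin m → B) (h e T i : ℕ) (L1 L2 : List (Fin S × ℕ × Fin S)) (A : Finset (Fin n))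
    (s1 s2 : Fin n → Fin D) (δ : ℝ)
    (hH : ∀ h1 h2, (Nat.card {I // InH P enc g x0 h e T i L1 L2 A h1 h2 I} : ℝ) ≤ δ) :
    (Nat.card {I // InD P enc g x0 h e T i L1 L2 A s1 s2 I} : ℝ) ≤ ((m : ℝ) / (e + 1)) ^ (2 * A.card) * δ := by
  sorry

/-- R4: all types together, from R1, R2, R3 (`s1`, `s2` matter on `A` only). -/
theorem bad_bound (hE : Mds enc (4 * D)) (P : NProg (B × W) F Z S) (hP : Det P) (g : Fin D → Equiv.Perm (Fin n))
    (x0 : Fin n × Fin m → B) (h e T a R q q' d : ℕ) (hX : Expands g a) (ha : 1 ≤ a) (hh : 0 < h)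
    (hL : h + 1 ≤ Fintype.card W) (he : e < m) (hq' : q ≤ 2 ^ q') (hR : q' + d ≤ R) (r : ℝ) (hr : 0 < r)
    (hrT : (T : ℝ) ≤ (1 - r) * Fintype.card (B × W))
    (hrh : (m * h + e * Fintype.card W : ℝ) ≤ m * Fintype.card W * r / 2) :
    (Nat.card {I // CF (fine g) x0 R (tab enc I) ∧ ∃ (L : List (Fin S × ℕ × Fin S)) (c : List (B × W)), L.length ≤ q ∧
        (∀ p ∈ L, p.2.1 ≤ 2 ^ d) ∧ RunL P I L c ∧ Fintype.card (B × W) ≤ (free c).card + T ∧
        a ≤ (comp enc g x0 h e R I (free c)).card} : ℝ) ≤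
      errA n D m a R S q d e r ((h : ℝ) / Fintype.card W) * Nat.card (B × W → F) := by
  sorry

/-! ## G: the game -/

open Classical in
/-- G1: the cylinder lemma in one orbit (Helper27/PB/Cyl.lean), for the letters `t < m1`. The shift of the word `b u` of
the window `j` for the node `u ∈ K` with hole `(s, t0) = hh j u` by `y : Fin m1 → B` is a `w : W` with
`enc w (s', t0 - t) = if s' = s then y t else 0` for all `s'`, `t < m1` (`Mds enc (D * m1)`). -/
theorem cyl_bound [AddCommGroup G] [Fintype G] {w m1 : ℕ} (hE : Mds enc (D * m1)) (hm1 : m1 ≤ m)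
    (g : Fin D → Equiv.Perm (Fin n))
    (hh : Fin (w + 1) → Fin n → Fin D × Fin m) (t0 : Fin n × Fin m → B) (K : Finset (Fin n)) (h : ℕ) (h0 : 0 < h)
    (E : Fin (w + 1) → Finset (Ch n m F W))
    (U : Fin (w + 1) → Ch n m F W → Fin n → Finset W)
    (hU : ∀ j, ∀ x ∈ E j, ∀ u ∈ K, (U j x u).card = h)
    (cl : ∀ j, ∀ x ∈ E j, ∀ x', (∀ p l, x' p l ≠ x p l → ∃ u ∈ K, pos g (hh j) u = p ∧ l ∈ U j x u) →
      x' ∈ E j ∧ ∀ u ∈ K, U j x' u = U j x u)
    (γ : B → G) {δ : ℝ} (hδ : 0 ≤ δ) (hγ : CB γ (Fin K.card × Fin m1) (2 * w + 1) δ) (z : G) :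
    ((univ.filter (fun x : Ch n m F W => (∀ j, x ∈ E j) ∧
        ∑ v ∈ univ.filter (fun v : Fin n × Fin m => v.2.val < m1), γ (t0 v + lam enc g x v) = z)).card : ℝ) ≤
      (univ.filter (fun x : Ch n m F W => ∀ j, x ∈ E j)).card / Fintype.card G +
        δ * (1 / ((h : ℝ) / Fintype.card W)) ^ (2 * (w + 1) * K.card) * Nat.card (Ch n m F W) := by
  sorry

/-- G2: the inputs of one type (Helper98/PB/TypeBound.lean), with `InS` for the sides `L j`. -/
theorem type_bound [AddCommGroup G] [Fintype G] {m1 : ℕ} (hE : Mds enc (D * m1)) (hm1 : m1 ≤ m)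
    (P : NProg (B × W) F Z S) (hP : Det P) (hD : 0 < D)
    (g : Fin D → Equiv.Perm (Fin n)) (x0 : Fin n × Fin m → B) {h T R w : ℕ} (h0 : 0 < h)
    (hhL : h ≤ Fintype.card W) {E : ℝ} (hE0 : 0 ≤ E)
    (γ : B → G) (L : Fin (w + 1) → List (Fin S × ℕ × Fin S)) (Φ : Fin (w + 1) → List (B × W) → Prop)
    (τ : Fin (w + 1) → Fin n → Option (Fin D × Fin m))
    (hCB : CB γ (Fin (opn τ).card × Fin m1) (2 * w + 1) E) (a : G) :
    (Nat.card {I : B × W → F // CF (fine g) x0 R (tab enc I) ∧ (∀ j, InS P enc g x0 h T R (L j) (Φ j) (τ j) I) ∧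
        gout enc g x0 m1 R γ I = a} : ℝ) ≤
      Nat.card {I : B × W → F // CF (fine g) x0 R (tab enc I) ∧ ∀ j, InS P enc g x0 h T R (L j) (Φ j) (τ j) I} /
          Fintype.card G +
        E * (1 / ((h : ℝ) / Fintype.card W)) ^ (2 * (w + 1) * n) * Nat.card (B × W → F) := by
  sorry

/-- G3: all classes `t : Θ`, for fixed `γ` (like `det_bound_of_bad` in Helper27/PB/Det.lean). Inputs with `a` nodes in
`comp` of a side are bad (R4). For the others the types `τ` (`(D m + 1) ^ (2 n)`) have at least `N` nodes in `opn τ`;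
for one class the types `τ` are disjoint (K5). -/
theorem class_bound [AddCommGroup G] [Fintype G] {m1 : ℕ} (hE : Mds enc (D * m1)) (hE4 : Mds enc (4 * D))
    (hm1 : m1 ≤ m) (P : NProg (B × W) F Z S) (hP : Det P) (g : Fin D → Equiv.Perm (Fin n))
    (x0 : Fin n × Fin m → B) {h e T a R q q' d N : ℕ} (hX : Expands g a) (ha : 1 ≤ a) (hh : 0 < h)
    (hL : h + 1 ≤ Fintype.card W) (he : e < m) (hq' : q ≤ 2 ^ q') (hR : q' + d ≤ R) (r : ℝ)
    (hr : 0 < r) (hrT : (T : ℝ) ≤ (1 - r) * Fintype.card (B × W))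
    (hrh : (m * h + e * Fintype.card W : ℝ) ≤ m * Fintype.card W * r / 2)
    (γ : B → G) {E : ℝ} (hE0 : 0 ≤ E) (hN : N + 2 * a ≤ n)
    (hCB : ∀ p, N ≤ p → CB γ (Fin p × Fin m1) 3 E) {Θ : Type} [Fintype Θ]
    (L : Θ → Fin 2 → List (Fin S × ℕ × Fin S)) (Φ : Θ → Fin 2 → List (B × W) → Prop) (y : Θ → G)
    (hLq : ∀ t j, (L t j).length ≤ q) (hLd : ∀ t j, ∀ p ∈ L t j, p.2.1 ≤ 2 ^ d) :
    (Nat.card {I // CF (fine g) x0 R (tab enc I) ∧ ∃ t, y t = gout enc g x0 m1 R γ I ∧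
        ∀ j, InC P T (L t j) (Φ t j) I} : ℝ) ≤
      (∑ t, (Nat.card {I // ∀ j, InC P T (L t j) (Φ t j) I} : ℝ)) / Fintype.card G +
        (errA n D m a R S q d e r ((h : ℝ) / Fintype.card W) + Fintype.card Θ * (D * m + 1) ^ (2 * n) *
          (E * (1 / ((h : ℝ) / Fintype.card W)) ^ (4 * n))) * Nat.card (B × W → F) := by
  sorry

/-- G5: the letters of the rows `0, …, R` are different for most inputs. Row `i + 1` in the orbits of row `i` (`act`):
a letter, and the difference of two letters, is uniformly distributed (at most `2 D` values of a cell). -/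
theorem card_not_CF (hE : Mds enc (2 * D)) (hD : 0 < D) (g : Fin D → Equiv.Perm (Fin n)) (x0 : Fin n × Fin m → B)
    (hx0 : Function.Injective x0) (R : ℕ) :
    (Nat.card {I : B × W → F // ¬ CF (fine g) x0 R (tab enc I)} : ℝ) ≤
      ((R + 1) * (n * m)) ^ 2 / Fintype.card B * Nat.card (B × W → F) := by
  sorry

/-- G4: the average over `γ` (like `main_bound` in Helper6/PB/Main.lean): `bns2` of helper18 with `w = 3`, `fixz`;
inputs without `CF` (G5). -/
theorem main_bound {m1 : ℕ} (hE : Mds enc (D * m1)) (hE4 : Mds enc (4 * D)) (hm1 : m1 ≤ m) (hm0 : 0 < m1)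
    (P : NProg (B × W) F F S) (hP : Det P) (hD : 0 < D) (g : Fin D → Equiv.Perm (Fin n)) (x0 : Fin n × Fin m → B)
    (hx0 : Function.Injective x0)
    {h e T a R q q' d : ℕ} (hX : Expands g a) (ha : 1 ≤ a) (hh : 0 < h)
    (hL : h + 1 ≤ Fintype.card W) (he : e < m) (hq' : q ≤ 2 ^ q') (hR : q' + d ≤ R) (r : ℝ)
    (hr : 0 < r) (hrT : (T : ℝ) ≤ (1 - r) * Fintype.card (B × W))
    (hrh : (m * h + e * Fintype.card W : ℝ) ≤ m * Fintype.card W * r / 2) (hn : 2 * a ≤ n) {Θ : Type} [Fintype Θ]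
    (L : Θ → Fin 2 → List (Fin S × ℕ × Fin S)) (Φ : Θ → Fin 2 → List (B × W) → Prop) (y : Θ → F)
    (hLq : ∀ t j, (L t j).length ≤ q) (hLd : ∀ t j, ∀ p ∈ L t j, p.2.1 ≤ 2 ^ d) :
    (Nat.card {I // ∃ t, y t = out enc g x0 m1 R I ∧ ∀ j, InC P T (L t j) (Φ t j) I} : ℝ) ≤
      (∑ t, (Nat.card {I // ∀ j, InC P T (L t j) (Φ t j) I} : ℝ)) / Fintype.card F +
        (((R + 1) * (n * m)) ^ 2 / Fintype.card B +
          Fintype.card F * 2 ^ 4 / Real.sqrt (Fintype.card B) +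
          errA n D m a R S q d e r ((h : ℝ) / Fintype.card W) + Fintype.card Θ * (D * m + 1) ^ (2 * n) *
            ((Fintype.card B : ℝ) ^ (-((n - 2 * a : ℕ) * m1 : ℝ) / 2 ^ 5) *
              (1 / ((h : ℝ) / Fintype.card W)) ^ (4 * n))) * Nat.card (B × W → F) := by
  sorry

end net

/-! ## N: the numbers -/

/-- N1: the numbers: `a = s ^ 20`, `n = 16 a`, `m = s ^ 13`, `R = 2 s`, `d = q' = s`, `q = s ^ 8` samples,
`k = card B ≥ s ^ 2000`, `card W = k ^ 60`, `w ≤ log s`, `ε, θ ≥ 1 / s`, `r = 1 / (5 s ^ 2)`. -/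
theorem numbers {s k w q T h e S L N t Q : ℕ} {ε θ : ℝ} (hs : 2 ^ 60 ≤ s) (hk : s ^ 2000 ≤ k)
    (hw : 2 ^ w ≤ s) (hε : 1 / (s : ℝ) ≤ ε) (hε1 : ε ≤ 1) (hθ : 1 / (s : ℝ) ≤ θ) (hθ1 : θ ≤ 1) (hL : L = k ^ 60)
    (hN : N = k * L) (hT : T = N - ⌊ε / (4 * 2 ^ w) * N⌋₊) (hq : q = s ^ 8) (hh : h = L / (20 * s ^ 2))
    (he : e = s ^ 13 / (20 * s ^ 2)) (hS : S ≤ 2 ^ s) (hQ : Q = (w + 1) * q + 1)
    (ht : t ≤ (S * (2 ^ s + 1) * (w + 2) ^ q) ^ ((w + 1) * q + 2)) :
    (10 ^ 6 : ℝ) * 2 ^ w * (w + 1) * (s + 1 / (θ / 4)) ^ 2 / (ε ^ 2 * (θ / 4)) ≤ q ∧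
    (N : ℝ) ≤ T + ε / (4 * 2 ^ w) * N ∧ Q ≤ 2 ^ s ∧ 0 < h ∧ h + 1 ≤ L ∧ e < s ^ 13 ∧
    (T : ℝ) ≤ (1 - 1 / (5 * s ^ 2)) * N ∧
    ((s ^ 13 : ℕ) * h + e * L : ℝ) ≤ (s ^ 13 : ℕ) * L * (1 / (5 * s ^ 2)) / 2 ∧
    ((2 * s + 1 : ℝ) * ((8 * s ^ 20 * 2 : ℕ) * (s ^ 13 : ℕ))) ^ 2 / k + 2 * 2 ^ 4 / Real.sqrt k +
      errA (8 * s ^ 20 * 2) 15 (s ^ 13) (s ^ 20) (2 * s) S Q s e (1 / (5 * s ^ 2)) ((h : ℝ) / L) +
      t * (15 * (s ^ 13 : ℕ) + 1) ^ (2 * (8 * s ^ 20 * 2)) *
        ((k : ℝ) ^ (-((8 * s ^ 20 * 2 - 2 * s ^ 20 : ℕ) * (1 : ℕ) : ℝ) / 2 ^ 5) *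
          (1 / ((h : ℝ) / L)) ^ (4 * (8 * s ^ 20 * 2))) ≤ θ / 4 := by
  sorry

section net

variable {n D m S : ℕ} [NeZero m] {F B W G Z : Type} [Field F] [Fintype F] [AddCommGroup B] [AddCommGroup W]
  [Module F W] [Fintype W] [Fintype B] (enc : W →+ (Fin D × Fin m → B))

/-! ## U: the pushdown program -/

/-- U1: the pushdown program (`Helper60.PH.pushdown_program1` with the result over the letters `t < m1` and the
contents `W × F`, then `symbols_of_contents`). -/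
theorem pushdown_program (g : Fin D → Equiv.Perm (Fin n)) (x0 : Fin n × Fin m → B) (m1 R : ℕ) (hn : 0 < n)
    (hB : (R + 2) * (n * m) * (D * m) ≤ Fintype.card B) (hB2 : 2 ≤ Fintype.card B)
    (hW : Fintype.card B ^ 9 ≤ Fintype.card W) (hF : Fintype.card F ≤ Fintype.card B) :
    ∃ (Q Γ : Type) (_ : Finite Q) (_ : Finite Γ) (P : PProg (B × W) F F Q Γ),
      Nat.card Q ≤ Nat.card (B × W) ^ 3 ∧ Nat.card Γ ≤ Nat.card (B × W) ∧
      ∀ I, P.Outputs I (out enc g x0 m1 R I) ∧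
        Nat.card {x // P.Asks I x} ≤ (R + 2) * (n * m) * Nat.card W := by
  sorry

end net

/-! ## V: the code -/

/-- V1: the values of polynomials of degree less than `j` at the points `ω c` (Lagrange interpolation). -/
noncomputable def evalCode {K : Type} [Field K] {D m j : ℕ} (ω : Fin D × Fin m → K) :
    (Fin j → K) →+ (Fin D × Fin m → K) where
  toFun w := fun c => ∑ i, w i * ω c ^ i.val
  map_zero' := by
    funext c
    simp
  map_add' w w' := by
    funext c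
    simp [add_mul, Finset.sum_add_distrib]

theorem mds_evalCode {K : Type} [Field K] {D m j : ℕ} (ω : Fin D × Fin m → K) (hω : Function.Injective ω) :
    Mds (evalCode (j := j) ω) j := by
  sorry

end Pool.Agent.Helper96.BT.Frame
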